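import Pool.Agent.H81.RN.Defs

/-!
# RNN: separation in the next generation
-/

set_option autoImplicit false

namespace Pool.Agent.RN

namespace H27

section

variable (K : ℕ) (W : Word)

/-- column `i` of block `j` -/
def bcol (j i : ℕ) : ℕ := Lf K W + q K * j + i

lemma q_pos : 0 < q K := by unfold q; omega

lemma bcol_not_inF (j i : ℕ) : ¬ inF K W (bcol K W j i) := by
  unfold inF bcol; omega

lemma bcol_inB (j i : ℕ) (hj : j < W.N) (hi : i < q K) : inB K W (bcol K W j i) := by
  unfold inB bcol
  have : q K * j + q K ≤ q K * W.N := by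
    have : q K * (j + 1) ≤ q K * W.N := Nat.mul_le_mul_left _ hj
    simpa [Nat.mul_add] using this
  omega

lemma oj_bcol (j i : ℕ) (hi : i < q K) : oj K W (bcol K W j i) = j := by
  unfold oj bcol
  rw [show Lf K W + q K * j + i - Lf K W = i + q K * j by omega,
    Nat.add_mul_div_left _ _ (q_pos K), Nat.div_eq_of_lt hi, zero_add]

lemma oi_bcol (j i : ℕ) (hi : i < q K) : oi K W (bcol K W j i) = i := by
  unfold oi bcol
  rw [show Lf K W + q K * j + i - Lf K W = i + q K * j by omega,
    Nat.add_mul_mod_self_left, Nat.mod_eq_of_lt hi]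

lemma bcol_lt (j i : ℕ) (hj : j < W.N) (hi : i < q K) : bcol K W j i < (next K W).N := by
  have h := bcol_inB K W j i hj hi
  unfold inB at h
  show bcol K W j i < 2 * Lf K W + q K * W.N
  omega

lemma kind_bcol (j i : ℕ) (hj : j < W.N) (hi : i < q K) :
    (next K W).kind (bcol K W j i) = blkKind K (W.kind j) i := by
  show (if inF K W (bcol K W j i) then _ else if inB K W (bcol K W j i) then _ else _) = _
  rw [if_neg (bcol_not_inF K W j i), if_pos (bcol_inB K W j i hj hi), oj_bcol K W j i hi,
    oi_bcol K W j i hi]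

lemma zN_main (zj : ℕ → ℕ) (d j : ℕ) (hj : j < W.N) (hK : 1 ≤ K) :
    zN K W zj d (bcol K W j (4 * K)) = zj j := by
  have hi : 4 * K < q K := by unfold q; omega
  unfold zN
  rw [if_neg (bcol_not_inF K W j _), if_pos (bcol_inB K W j _ hj hi), oj_bcol K W j _ hi,
    oi_bcol K W j _ hi, if_neg (by omega), if_neg (by omega), if_pos le_rfl]

lemma zN_src (zj : ℕ → ℕ) (d j l : ℕ) (hj : j < W.N) (hl : l < K) :
    zN K W zj d (bcol K W j l) = 1 - dig d l := by
  have hi : l < q K := by unfold q; omega
  unfold zN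
  rw [if_neg (bcol_not_inF K W j _), if_pos (bcol_inB K W j _ hj hi),
    oi_bcol K W j _ hi, if_pos hl]

end

/-- numbers below `2 ^ K` with the same digits are equal -/
lemma eq_of_dig (K d d' : ℕ) (hd : d < 2 ^ K) (hd' : d' < 2 ^ K)
    (h : ∀ l, l < K → dig d l = dig d' l) : d = d' := by
  induction K generalizing d d' with
  | zero =>
    simp at hd hd'
    omega
  | succ K ih =>
    have h0 := h 0 (by omega)
    simp only [dig, pow_zero, Nat.div_one] at h0
    have h1 : d / 2 = d' / 2 := by
      apply ih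
      · rw [pow_succ] at hd; omega
      · rw [pow_succ] at hd'; omega
      · intro l hl
        have := h (l + 1) (by omega)
        simp only [dig, pow_succ'] at this
        simp only [dig]
        rw [Nat.div_div_eq_div_mul, Nat.div_div_eq_div_mul]
        exact this
    omega

end H27

open H27 in
/-- N7: separation for the next generation -/
theorem sep_next (K : ℕ) (W : Word) {S : Type} (z : S → ℕ → ℕ) (hK : 1 ≤ K) (hW : W.WF)
    (hsep : ∀ s s', s ≠ s' → ∃ j, j < W.N ∧ W.kind j = Kind.real ∧ z s j ≠ z s' j)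
    (s s' : S × Fin (2 ^ K)) (hss : s ≠ s') :
    ∃ c, c < (next K W).N ∧ (next K W).kind c = Kind.real ∧
      zN K W (z s.1) s.2 c ≠ zN K W (z s'.1) s'.2 c := by
  obtain ⟨s, d⟩ := s
  obtain ⟨s', d'⟩ := s'
  by_cases hd : d = d'
  · subst hd
    have hs : s ≠ s' := by
      rintro rfl
      exact hss rfl
    obtain ⟨j, hj, hk, hz⟩ := hsep s s' hs
    have hi : 4 * K < q K := by unfold q; omega
    refine ⟨bcol K W j (4 * K), bcol_lt K W j _ hj hi, ?_, ?_⟩
    · rw [kind_bcol K W j _ hj hi, hk]
      show (if 4 * K < K then Kind.real else if 4 * K < 2 * K then Kind.none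
        else if 4 * K < 3 * K then Kind.wire else if 4 * K < 4 * K then Kind.none
        else if 4 * K ≤ 5 * K then Kind.real else Kind.none) = Kind.real
      rw [if_neg (by omega), if_neg (by omega), if_neg (by omega), if_neg (by omega),
        if_pos (by omega)]
    · show zN K W (z s) d _ ≠ zN K W (z s') d _
      rw [zN_main K W _ _ j hj hK, zN_main K W _ _ j hj hK]
      exact hz
  · obtain ⟨j, hj, hk⟩ := hW.exists_real
    have : ∃ l, l < K ∧ dig d l ≠ dig d' l := by
      by_contra hcon
      push Not at hcon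
      exact hd (Fin.ext (eq_of_dig K d d' d.2 d'.2 hcon))
    obtain ⟨l, hl, hdl⟩ := this
    have hi : l < q K := by unfold q; omega
    refine ⟨bcol K W j l, bcol_lt K W j _ hj hi, ?_, ?_⟩
    · rw [kind_bcol K W j _ hj hi, hk]
      show (if l < K then Kind.real else _) = Kind.real
      rw [if_pos hl]
    · show zN K W (z s) d _ ≠ zN K W (z s') d' _
      rw [zN_src K W _ _ j l hj hl, zN_src K W _ _ j l hj hl]
      have h1 : dig (d : ℕ) l < 2 := Nat.mod_lt _ (by norm_num)
      have h2 : dig (d' : ℕ) l < 2 := Nat.mod_lt _ (by norm_num)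
      omega

end Pool.Agent.RN
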